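import Pool.Agent.Q302.EU.Main

/-!
# Erdős–Ulam ideals defined by modulus functions are simple density ideals
-/

set_option autoImplicit false

open Set Topology Filter

namespace Pool.Agent.Results.MP_54d8ad_lc.OnlySimpleDensity

/-- The number of elements of `A` below `n`. -/
noncomputable def cnt (A : Set ℕ) (n : ℕ) : ℕ := (A ∩ Set.Iio n).ncard

/-- The weights which define Erdős–Ulam ideals. -/
def IsWeight (h : ℕ → ℝ) : Prop :=
  (∀ i, 0 ≤ h i) ∧ Tendsto (fun n => ∑ i ∈ Finset.range n, h i) atTop atTop ∧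
    Tendsto (fun n => h n / ∑ i ∈ Finset.range (n + 1), h i) atTop (𝓝 0)

/-- The Erdős–Ulam ideal of the weight `h`. -/
noncomputable def EU (h : ℕ → ℝ) : Set (Set ℕ) :=
  {A | Tendsto (fun n => (∑ i ∈ Finset.range n, A.indicator h i) / ∑ i ∈ Finset.range n, h i)
    atTop (𝓝 0)}

/-- The class `H`. -/
def ClassH (g : ℕ → ℕ) : Prop :=
  Monotone g ∧ Tendsto g atTop atTop ∧ ¬ Tendsto (fun n : ℕ => (n : ℝ) / g n) atTop (𝓝 0)

/-- The simple density ideal of `g`. -/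
noncomputable def simpleDensity (g : ℕ → ℕ) : Set (Set ℕ) :=
  {A | Tendsto (fun n => (cnt A n : ℝ) / g n) atTop (𝓝 0)}

/-- Modulus functions (only the values on `[0, ∞)` matter). -/
structure IsModulus (f : ℝ → ℝ) : Prop where
  nonneg : ∀ x, 0 ≤ x → 0 ≤ f x
  zero_iff : ∀ x, 0 ≤ x → (f x = 0 ↔ x = 0)
  subadditive : ∀ x y, 0 ≤ x → 0 ≤ y → f (x + y) ≤ f x + f y
  increasing : ∀ x y, 0 ≤ x → x ≤ y → f x ≤ f y
  right_continuous : ContinuousWithinAt f (Set.Ici 0) 0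

/-- The function `f` is unbounded on `[0, ∞)`. -/
def UnboundedAbove (f : ℝ → ℝ) : Prop := ∀ C : ℝ, ∃ x, 0 ≤ x ∧ C < f x

/-- The ideal `Z_g(f)`. -/
noncomputable def modDensity (g : ℕ → ℕ) (f : ℝ → ℝ) : Set (Set ℕ) :=
  {A | Tendsto (fun n => f (cnt A n) / f (g n)) atTop (𝓝 0)}

theorem cnt_eq (A : Set ℕ) (n : ℕ) :
    (cnt A n : ℝ) = Pool.Agent.Q302.EU.wgt (fun _ => 1) A n := by
  classical
  have h1 : A ∩ Set.Iio n = ((Finset.range n).filter (· ∈ A) : Finset ℕ) := by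
    ext i
    simp [and_comm]
  rw [cnt, h1, Set.ncard_coe_finset, Pool.Agent.Q302.EU.wgt, Finset.card_filter]
  push_cast
  refine Finset.sum_congr rfl fun i _ => ?_
  rw [Set.indicator_apply]

theorem cnt_le (A : Set ℕ) (n : ℕ) : (cnt A n : ℝ) ≤ n := by
  rw [cnt_eq]
  refine (Pool.Agent.Q302.EU.wgt_le_tot (fun _ => zero_le_one) A n).trans (le_of_eq ?_)
  simp [Pool.Agent.Q302.EU.tot]

theorem main {g : ℕ → ℕ} (hg : ClassH g) {f : ℝ → ℝ} (hf : IsModulus f) {h : ℕ → ℝ}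
    (hh : IsWeight h) (hsub : EU h ⊆ modDensity g f) :
    ∃ g', ClassH g' ∧ modDensity g f = simpleDensity g' := by
  have fpos : ∀ x, 0 < x → 0 < f x := fun x hx =>
    lt_of_le_of_ne (hf.nonneg x hx.le) fun h0 => hx.ne' ((hf.zero_iff x hx.le).1 h0.symm)
  have f0 : f 0 = 0 := (hf.zero_iff 0 le_rfl).2 rfl
  have hstar := Pool.Agent.Q302.EU.star hg.2.1 fpos hf.increasing hh.1 hh.2.1 hh.2.2
    (fun A hA => by
      have h1 : A ∈ modDensity g f := hsub hA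
      refine Tendsto.congr (fun n => ?_) h1
      rw [cnt_eq])
  obtain ⟨g', h1, h2, h3, h4⟩ := Pool.Agent.Q302.EU.reduction fpos hf.increasing hf.subadditive f0
    hg.1 hg.2.1 hg.2.2 hstar
  refine ⟨g', ⟨h1, h2, h3⟩, ?_⟩
  ext A
  exact (h4 (fun n => cnt A n) fun n => ⟨Nat.cast_nonneg _, cnt_le A n⟩).symm

theorem result :
    (∀ (h : ℕ → ℝ) (g : ℕ → ℕ) (f : ℝ → ℝ), IsWeight h → ClassH g → IsModulus f →
      UnboundedAbove f → EU h ⊆ modDensity g f →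
        ∃ g', ClassH g' ∧ modDensity g f = simpleDensity g') ∧
    ¬ ∃ (h : ℕ → ℝ) (g : ℕ → ℕ) (f : ℝ → ℝ), IsWeight h ∧ ClassH g ∧ IsModulus f ∧
      UnboundedAbove f ∧ EU h = modDensity g f ∧ ∀ g', ClassH g' → EU h ≠ simpleDensity g' := by
  refine ⟨fun h g f hh hg hf _ hsub => main hg hf hh hsub, ?_⟩
  rintro ⟨h, g, f, hh, hg, hf, -, heq, hne⟩
  obtain ⟨g', hg', h1⟩ := main hg hf hh heq.subset
  exact hne g' hg' (heq.trans h1)

end Pool.Agent.Results.MP_54d8ad_lc.OnlySimpleDensity
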